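import Mathlib

namespace Pool.Agent.Results.MP_bdb089_mp.No

open MeasureTheory Complex
open scoped InnerProductSpace ComplexConjugate Real

noncomputable section

/-- the one-mode Hilbert space -/
abbrev H := Lp ℂ 2 (volume : Measure ℝ)

/-- Wigner function of `|φ⟩⟨φ|` -/
def wig (φ : H) (x p : ℝ) : ℂ :=
  (1 / π) * ∫ y : ℝ, φ (x + y) * conj (φ (x - y)) * cexp (-2 * I * p * y)

/-- Wigner-positive states, given by their matrix elements `ρ f g = ⟨f|ρ|g⟩`: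
`ρ = ∑ₖ |φₖ⟩⟨φₖ|` with trace `∑ₖ ‖φₖ‖² = 1` and `W_ρ = ∑ₖ W_{φₖ} ≥ 0` -/
def Dplus : Set (H → H → ℂ) :=
  {ρ | ∃ φ : ℕ → H, HasSum (fun k => ‖φ k‖ ^ 2) 1 ∧
    (∀ f g, HasSum (fun k => ⟪f, φ k⟫_ℂ * ⟪φ k, g⟫_ℂ) (ρ f g)) ∧
    ∀ x p : ℝ, ∃ w : ℝ, 0 ≤ w ∧ HasSum (fun k => wig (φ k) x p) w}

/-- the wave function of `U (ψ ⊗ φ)`; `U` is the rotation of the plane by `π / 4` -/
def out (ψ φ : H) (x z : ℝ) : ℂ := ψ ((x - z) / √2) * φ ((x + z) / √2)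

/-- matrix elements of the beam-splitter state (partial trace over the second mode) -/
def bs (ψ φ : H) (f g : H) : ℂ :=
  ∫ z : ℝ, (∫ x : ℝ, conj (f x) * out ψ φ x z) * conj (∫ x : ℝ, conj (g x) * out ψ φ x z)

/-- Fock-bounded: a finite combination of Hermite functions -/
def FockB (ψ : H) : Prop :=
  ∃ P : Polynomial ℂ, ∀ᵐ x : ℝ, ψ x = P.eval (x : ℂ) * cexp (-(x : ℂ) ^ 2 / 2)

def G (p y : ℝ) : ℂ := cexp (-(y : ℂ) ^ 2 - 2 * I * p * y)

theorem int_k (k : ℕ) (p : ℝ) : Integrable fun y : ℝ => (y : ℂ) ^ k * G p y := by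
  have h := integrable_rpow_mul_exp_neg_mul_sq (b := 1) one_pos (s := k)
    (by linarith [Nat.cast_nonneg (α := ℝ) k])
  refine h.norm.mono' (by unfold G; fun_prop) (Filter.Eventually.of_forall fun y => le_of_eq ?_)
  simp [G, Complex.norm_exp, ← Complex.ofReal_pow]

def m (k : ℕ) (p : ℝ) : ℂ := ∫ y : ℝ, (y : ℂ) ^ k * G p y

theorem G_der (p y : ℝ) : HasDerivAt (G p) ((-2 * y - 2 * I * p) * G p y) y := by
  have h := Complex.ofRealCLM.hasDerivAt (x := y)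
  refine (((h.pow 2).neg.sub (h.const_mul (2 * I * p))).cexp).congr_deriv ?_
  simp [G]; ring

theorem m_rec (k : ℕ) (p : ℝ) : 2 * m (k + 1) p = k * m (k - 1) p - 2 * I * p * m k p := by
  have h := fun y : ℝ => Complex.ofRealCLM.hasDerivAt (x := y)
  have h1 := integral_eq_zero_of_hasDerivAt_of_integrable (f := fun y : ℝ => (y : ℂ) ^ k * G p y)
    (f' := fun y : ℝ => k * ((y : ℂ) ^ (k - 1) * G p y) - 2 * I * p * ((y : ℂ) ^ k * G p y) -
      2 * ((y : ℂ) ^ (k + 1) * G p y))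
    (fun y => by
      refine (((h y).pow k).mul (G_der p y)).congr_deriv ?_
      simp; ring)
    ((((int_k _ p).const_mul _).sub ((int_k _ p).const_mul _)).sub ((int_k _ p).const_mul _))
    (int_k k p)
  rw [integral_sub, integral_sub ((int_k _ p).const_mul _) ((int_k _ p).const_mul _),
    integral_const_mul, integral_const_mul, integral_const_mul] at h1
  rotate_left
  · exact ((int_k _ p).const_mul _).sub ((int_k _ p).const_mul _)
  · exact (int_k _ p).const_mul _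
  simp only [m]
  linear_combination -h1

def s : ℝ := √π

theorem s_pos : 0 < s := Real.sqrt_pos.2 Real.pi_pos

theorem m0 (p : ℝ) : m 0 p = s * cexp (-(p : ℂ) ^ 2) := by
  have := integral_cexp_quadratic (b := -1) (by simp) (-(2 * I * p)) 0
  simp only [m, pow_zero, one_mul, G]
  convert this using 2
  · ext y; congr 1; ring
  · rw [s, Real.sqrt_eq_rpow, Complex.ofReal_cpow Real.pi_pos.le]; simp
  · congr 1
    linear_combination (-(p : ℂ) ^ 2) * I_sq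

theorem mom (c0 c1 c2 c3 c4 : ℂ) (p : ℝ) :
    ∫ y : ℝ, (c0 + c1 * y + c2 * y ^ 2 + c3 * y ^ 3 + c4 * y ^ 4) * G p y =
      s * cexp (-(p : ℂ) ^ 2) * (c0 + c1 * (-I * p) + c2 * (1 / 2 - p ^ 2) +
        c3 * (I * p ^ 3 - 3 / 2 * I * p) + c4 * (p ^ 4 - 3 * p ^ 2 + 3 / 4)) := by
  have e : ∀ y : ℝ, (c0 + c1 * y + c2 * y ^ 2 + c3 * y ^ 3 + c4 * y ^ 4) * G p y =
      ∑ k : Fin 5, ![c0, c1, c2, c3, c4] k * ((y : ℂ) ^ (k : ℕ) * G p y) := fun y => by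
    simp [Fin.sum_univ_five]; ring
  simp only [e]
  rw [integral_finsetSum _ fun k _ => (int_k _ p).const_mul _]
  simp only [integral_const_mul]
  have h0 := m0 p
  have h1 := m_rec 0 p
  have h2 := m_rec 1 p
  have h3 := m_rec 2 p
  have h4 := m_rec 3 p
  norm_num at h1 h2 h3 h4
  set A := s * cexp (-(p : ℂ) ^ 2)
  have g1 : m 1 p = A * (-I * p) := by linear_combination h1 / 2 - I * p * h0
  have g2 : m 2 p = A * (1 / 2 - p ^ 2) := by
    linear_combination h2 / 2 + h0 / 2 - I * p * g1 + A * p ^ 2 * I_sq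
  have g3 : m 3 p = A * (I * p ^ 3 - 3 / 2 * I * p) := by
    linear_combination h3 / 2 + g1 - I * p * g2
  have g4 : m 4 p = A * (p ^ 4 - 3 * p ^ 2 + 3 / 4) := by
    linear_combination h4 / 2 + 3 / 2 * g2 - I * p * g3 - A * (p ^ 4 - 3 / 2 * p ^ 2) * I_sq
  change ∑ k : Fin 5, ![c0, c1, c2, c3, c4] k * m k p = _
  simp [Fin.sum_univ_five, h0, g1, g2, g3, g4]
  ring

def vf (a b c : ℝ) (x : ℝ) : ℂ := (a + b * x + c * x ^ 2) * cexp (-(x : ℂ) ^ 2 / 2)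

theorem conj_vf (a b c x : ℝ) : conj (vf a b c x) = vf a b c x := by
  simp [vf, ← Complex.exp_conj, map_ofNat]

theorem vf_mem (a b c : ℝ) : MemLp (vf a b c) 2 := by
  rw [memLp_two_iff_integrable_sq_norm (by unfold vf; fun_prop)]
  have h := (((((int_k 0 0).const_mul (a ^ 2 : ℂ)).add ((int_k 1 0).const_mul (2 * a * b : ℂ))).add
    ((int_k 2 0).const_mul (b ^ 2 + 2 * a * c : ℂ))).add
    ((int_k 3 0).const_mul (2 * b * c : ℂ))).add ((int_k 4 0).const_mul (c ^ 2 : ℂ))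
  refine h.norm.congr (Filter.Eventually.of_forall fun x => ?_)
  simp only [← norm_pow, Pi.add_apply]
  congr 1
  have : G 0 x = cexp (-(x : ℂ) ^ 2 / 2) ^ 2 := by
    rw [G, ← Complex.exp_nat_mul]; congr 1; simp; ring
  rw [this, vf]; ring

def vec (a b c : ℝ) : H := (vf_mem a b c).toLp _

theorem vec_coe (a b c : ℝ) : vec a b c =ᵐ[volume] vf a b c := (vf_mem a b c).coeFn_toLp

theorem vec_aff (a b c : ℝ) {u : ℝ} (hu : u ≠ 0) (v : ℝ) :
    ∀ᵐ y : ℝ, vec a b c (u * y + v) = vf a b c (u * y + v) := by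
  have h1 : Measure.QuasiMeasurePreserving (fun y : ℝ => u * y) volume volume :=
    ⟨by fun_prop, by rw [Real.map_volume_mul_left hu]; exact Measure.smul_absolutelyContinuous⟩
  exact ((measurePreserving_add_right volume v).quasiMeasurePreserving.comp h1).ae (vec_coe a b c)

theorem inner_vec (f : H) (a b c : ℝ) : ⟪f, vec a b c⟫_ℂ = ∫ x : ℝ, conj (f x) * vf a b c x := by
  rw [L2.inner_def]
  refine integral_congr_ae ?_
  filter_upwards [vec_coe a b c] with x hx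
  rw [hx, RCLike.inner_apply']

theorem vec_lin (a b c : ℝ) :
    vec a b c = (a : ℂ) • vec 1 0 0 + (b : ℂ) • vec 0 1 0 + (c : ℂ) • vec 0 0 1 := by
  ext1
  filter_upwards [vec_coe a b c, vec_coe 1 0 0, vec_coe 0 1 0, vec_coe 0 0 1,
    Lp.coeFn_add ((a : ℂ) • vec 1 0 0 + (b : ℂ) • vec 0 1 0) ((c : ℂ) • vec 0 0 1),
    Lp.coeFn_add ((a : ℂ) • vec 1 0 0) ((b : ℂ) • vec 0 1 0), Lp.coeFn_smul (a : ℂ) (vec 1 0 0),
    Lp.coeFn_smul (b : ℂ) (vec 0 1 0), Lp.coeFn_smul (c : ℂ) (vec 0 0 1)]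
    with x a1 a2 a3 a4 a5 a6 a7 a8 a9
  rw [a1, a5, Pi.add_apply, a6, Pi.add_apply, a7, a8, a9, Pi.smul_apply, Pi.smul_apply,
    Pi.smul_apply, a2, a3, a4]
  simp [vf]; ring

theorem inner_lin (f : H) (a b c : ℝ) : ⟪f, vec a b c⟫_ℂ =
    a * ⟪f, vec 1 0 0⟫_ℂ + b * ⟪f, vec 0 1 0⟫_ℂ + c * ⟪f, vec 0 0 1⟫_ℂ := by
  rw [vec_lin a b c]; simp only [inner_add_right, inner_smul_right]

theorem inner_lin' (g : H) (a b c : ℝ) : ⟪vec a b c, g⟫_ℂ =
    a * conj ⟪g, vec 1 0 0⟫_ℂ + b * conj ⟪g, vec 0 1 0⟫_ℂ + c * conj ⟪g, vec 0 0 1⟫_ℂ := by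
  rw [← inner_conj_symm, inner_lin]; simp only [map_add, map_mul, conj_ofReal]

theorem inner_vv (a b c a' b' c' : ℝ) : ⟪vec a b c, vec a' b' c'⟫_ℂ =
    (s * (a * a' + (b * b' + a * c' + c * a') / 2 + 3 / 4 * (c * c')) : ℝ) := by
  rw [inner_vec]
  have := mom (a * a') (a * b' + b * a') (b * b' + a * c' + c * a') (b * c' + c * b') (c * c') 0
  simp only [ofReal_zero] at this
  refine (integral_congr_ae ?_).trans (this.trans ?_)
  · filter_upwards [vec_coe a b c] with x hx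
    have : G 0 x = cexp (-(x : ℂ) ^ 2 / 2) ^ 2 := by
      rw [G, ← Complex.exp_nat_mul]; congr 1; simp; ring
    rw [hx, conj_vf, this, vf, vf]; ring
  · simp; left; ring

theorem norm_vec (a b c : ℝ) : ‖vec a b c‖ ^ 2 = s * (a ^ 2 + (b ^ 2 + 2 * a * c) / 2 + 3 / 4 * c ^ 2) := by
  have := inner_vv a b c a b c
  rw [inner_self_eq_norm_sq_to_K] at this
  have h2 : ‖vec a b c‖ ^ 2 = s * (a * a + (b * b + a * c + c * a) / 2 + 3 / 4 * (c * c)) := by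
    apply ofReal_injective
    rw [← this]; simp
  rw [h2]; ring

theorem wig_vec (a b c x p : ℝ) : wig (vec a b c) x p = ((1 / π) * Real.exp (-x ^ 2) *
    (s * Real.exp (-p ^ 2)) * ((a + b * x + c * x ^ 2) ^ 2 +
      (2 * c * (a + b * x + c * x ^ 2) - (b + 2 * c * x) ^ 2) * (1 / 2 - p ^ 2) +
      c ^ 2 * (p ^ 4 - 3 * p ^ 2 + 3 / 4)) : ℝ) := by
  have := mom ((a + b * x + c * x ^ 2) ^ 2) 0
    (2 * c * (a + b * x + c * x ^ 2) - (b + 2 * c * x) ^ 2) 0 (c ^ 2) p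
  rw [wig, integral_congr_ae (g := fun y : ℝ => cexp (-(x : ℂ) ^ 2) *
    ((((a + b * x + c * x ^ 2) ^ 2 : ℂ) + 0 * y + (2 * c * (a + b * x + c * x ^ 2) -
      (b + 2 * c * x) ^ 2) * y ^ 2 + 0 * y ^ 3 + c ^ 2 * y ^ 4) * G p y)), integral_const_mul, this]
  · push_cast; ring
  · filter_upwards [vec_aff a b c one_ne_zero x, vec_aff a b c (u := -1) (by norm_num) x]
      with y h1 h2
    rw [show x + y = 1 * y + x by ring, show x - y = -1 * y + x by ring, h1, h2, conj_vf, vf, vf, G]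
    have : cexp (-((1 * y + x : ℝ) : ℂ) ^ 2 / 2) * cexp (-((-1 * y + x : ℝ) : ℂ) ^ 2 / 2) *
        cexp (-2 * I * p * y) = cexp (-(x : ℂ) ^ 2) * cexp (-(y : ℂ) ^ 2 - 2 * I * p * y) := by
      simp only [← Complex.exp_add]; congr 1; push_cast; ring
    push_cast at this ⊢
    linear_combination ((a + b * (y + x) + c * (y + x) ^ 2) * (a + b * (-y + x) + c * (-y + x) ^ 2))
      * this

def r : ℝ := √(1 / s)

theorem r_sq : r ^ 2 * s = 1 := by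
  have := s_pos
  rw [r, Real.sq_sqrt (by positivity)]; field_simp

def ph (e : ℝ) : ℕ → H
  | 0 => vec (r * √2 / 3) 0 (r * √2 / 3)
  | 1 => vec (-r / 6) (r * e / 3) (r / 3)
  | 2 => vec 0 (r * √(6 - e ^ 2) / 3) 0
  | _ => 0

def rho (e : ℝ) (f g : H) : ℂ := ∑ k ∈ Finset.range 3, ⟪f, ph e k⟫_ℂ * ⟪ph e k, g⟫_ℂ

theorem ph_zero (e : ℝ) (k : ℕ) (hk : k ∉ Finset.range 3) : ph e k = 0 := by
  match k with
  | 0 | 1 | 2 => simp at hk
  | k + 3 => rfl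

theorem wig_zero (x p : ℝ) : wig 0 x p = 0 := by
  have : (0 : H) = vec 0 0 0 := by rw [vec_lin]; simp
  rw [this, wig_vec]; simp

theorem rho_mem {e : ℝ} (he : e ^ 2 ≤ 1) : rho e ∈ Dplus := by
  have h2 : √2 ^ 2 = 2 := Real.sq_sqrt (by norm_num)
  have h6 : √(6 - e ^ 2) ^ 2 = 6 - e ^ 2 := Real.sq_sqrt (by linarith)
  refine ⟨ph e, ?_, fun f g => hasSum_sum_of_ne_finset_zero fun k hk => by simp [ph_zero e k hk],
    fun x p => ⟨(1 / π) * Real.exp (-x ^ 2) * (s * Real.exp (-p ^ 2)) * (r ^ 2 / 3 *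
      ((x ^ 2 + p ^ 2 - 1) ^ 2 + 4 * x ^ 2 + 2 / 3 * e * x * (x ^ 2 + p ^ 2 - 1))), ?_, ?_⟩⟩
  · have h0 : HasSum (fun k => ‖ph e k‖ ^ 2) (∑ k ∈ Finset.range 3, ‖ph e k‖ ^ 2) :=
      hasSum_sum_of_ne_finset_zero fun k hk => by simp [ph_zero e k hk]
    convert h0 using 1
    simp only [Finset.sum_range_succ, Finset.range_zero, Finset.sum_empty, ph, norm_vec]
    linear_combination -r_sq - (11 / 36 * r ^ 2 * s) * h2 - (r ^ 2 * s / 18) * h6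
  · have := s_pos
    have : 0 ≤ (x ^ 2 + p ^ 2 - 1) ^ 2 + 4 * x ^ 2 + 2 / 3 * e * x * (x ^ 2 + p ^ 2 - 1) := by
      nlinarith [sq_nonneg (x ^ 2 + p ^ 2 - 1 + e * x / 3), sq_nonneg x,
        mul_le_mul_of_nonneg_right he (sq_nonneg x)]
    positivity
  · have h0 : HasSum (fun k => wig (ph e k) x p) (∑ k ∈ Finset.range 3, wig (ph e k) x p) :=
      hasSum_sum_of_ne_finset_zero fun k hk => by simp [ph_zero e k hk, wig_zero]
    convert h0 using 1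
    simp only [Finset.sum_range_succ, Finset.range_zero, Finset.sum_empty, ph, wig_vec, zero_add]
    rw [← ofReal_add, ← ofReal_add, ← mul_add, ← mul_add]
    congr 2
    linear_combination (-r ^ 2 / 9 * ((1 + x ^ 2) ^ 2 + (2 * (1 + x ^ 2) - 4 * x ^ 2) *
      (1 / 2 - p ^ 2) + (p ^ 4 - 3 * p ^ 2 + 3 / 4))) * h2 -
      r ^ 2 / 9 * (x ^ 2 - (1 / 2 - p ^ 2)) * h6

theorem rho_eq {e : ℝ} (he : e ^ 2 ≤ 1) (f g : H) : rho e f g = r ^ 2 / 3 *
    ((⟪f, vec 0 0 1⟫_ℂ + ⟪f, vec 1 0 0⟫_ℂ / 2) * conj (⟪g, vec 0 0 1⟫_ℂ + ⟪g, vec 1 0 0⟫_ℂ / 2)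
      + 2 * ⟪f, vec 0 1 0⟫_ℂ * conj ⟪g, vec 0 1 0⟫_ℂ
      + ⟪f, vec 1 0 0⟫_ℂ * conj ⟪g, vec 1 0 0⟫_ℂ / 2
      + e / 3 * (⟪f, vec 0 1 0⟫_ℂ * conj (⟪g, vec 0 0 1⟫_ℂ - ⟪g, vec 1 0 0⟫_ℂ / 2) +
        (⟪f, vec 0 0 1⟫_ℂ - ⟪f, vec 1 0 0⟫_ℂ / 2) * conj ⟪g, vec 0 1 0⟫_ℂ)) := by
  have h2 : ((√2 : ℝ) : ℂ) ^ 2 = 2 := by exact_mod_cast Real.sq_sqrt (by norm_num : (0 : ℝ) ≤ 2)
  have h6 : ((√(6 - e ^ 2) : ℝ) : ℂ) ^ 2 = 6 - e ^ 2 := by
    exact_mod_cast Real.sq_sqrt (by linarith : (0 : ℝ) ≤ 6 - e ^ 2)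
  simp only [rho, Finset.sum_range_succ, Finset.range_zero, Finset.sum_empty, ph, zero_add]
  rw [inner_lin f (r * √2 / 3), inner_lin f (-r / 6), inner_lin f 0 (r * √(6 - e ^ 2) / 3),
    inner_lin' g (r * √2 / 3), inner_lin' g (-r / 6), inner_lin' g 0 (r * √(6 - e ^ 2) / 3)]
  simp only [map_add, map_sub, map_div₀, map_ofNat]
  push_cast
  linear_combination (r ^ 2 / 9 * (⟪f, vec 1 0 0⟫_ℂ + ⟪f, vec 0 0 1⟫_ℂ) *
    (conj ⟪g, vec 1 0 0⟫_ℂ + conj ⟪g, vec 0 0 1⟫_ℂ)) * h2 +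
    (r ^ 2 / 9 * ⟪f, vec 0 1 0⟫_ℂ * conj ⟪g, vec 0 1 0⟫_ℂ) * h6

def N : ℝ := r * (2 / √3)

theorem inner_out (f : H) (z : ℝ) : ∫ x : ℝ, conj (f x) * out (vec 0 0 N) (vec r 0 0) x z =
    N * r * cexp (-(z : ℂ) ^ 2 / 2) * (z ^ 2 / 2 * ⟪f, vec 1 0 0⟫_ℂ - z * ⟪f, vec 0 1 0⟫_ℂ +
      ⟪f, vec 0 0 1⟫_ℂ / 2) := by
  have h := inner_lin f (z ^ 2 / 2) (-z) (1 / 2)
  have h2 : ((√2 : ℝ) : ℂ) ^ 2 = 2 := by exact_mod_cast Real.sq_sqrt (by norm_num : (0 : ℝ) ≤ 2)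
  have h3 : ((√2 : ℝ) : ℂ) ≠ 0 := by simp
  rw [integral_congr_ae (g := fun x : ℝ => N * r * cexp (-(z : ℂ) ^ 2 / 2) *
    (conj (f x) * vf (z ^ 2 / 2) (-z) (1 / 2) x)), integral_const_mul, ← inner_vec, h]
  · push_cast; ring
  · filter_upwards [vec_aff 0 0 N (u := 1 / √2) (by positivity) (-z / √2),
      vec_aff r 0 0 (u := 1 / √2) (by positivity) (z / √2)] with x a1 a2
    rw [out, show (x - z) / √2 = 1 / √2 * x + -z / √2 by ring,
      show (x + z) / √2 = 1 / √2 * x + z / √2 by ring, a1, a2, vf, vf, vf]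
    have e1 : (((1 / √2 * x + -z / √2 : ℝ) : ℂ)) ^ 2 = (x - z) ^ 2 / 2 := by
      push_cast; field_simp; rw [h2]; ring
    have e2 : (((1 / √2 * x + z / √2 : ℝ) : ℂ)) ^ 2 = (x + z) ^ 2 / 2 := by
      push_cast; field_simp; rw [h2]; ring
    rw [e1, e2]
    have : cexp (-(((x : ℂ) - z) ^ 2 / 2) / 2) * cexp (-(((x : ℂ) + z) ^ 2 / 2) / 2) =
        cexp (-(z : ℂ) ^ 2 / 2) * cexp (-(x : ℂ) ^ 2 / 2) := by
      simp only [← Complex.exp_add]; congr 1; ring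
    push_cast
    linear_combination (conj (f x) * N * r * ((x : ℂ) - z) ^ 2 / 2) * this

theorem N_sq : N ^ 2 = r ^ 2 * (4 / 3) := by
  rw [N, mul_pow, div_pow, Real.sq_sqrt (by norm_num)]; norm_num

theorem bs_eq : bs (vec 0 0 N) (vec r 0 0) = rho 0 := by
  ext f g
  rw [rho_eq (by norm_num), bs]
  simp only [inner_out]
  set o := ⟪f, vec 1 0 0⟫_ℂ
  set ξ := ⟪f, vec 0 1 0⟫_ℂ
  set η := ⟪f, vec 0 0 1⟫_ℂ
  set o' := ⟪g, vec 1 0 0⟫_ℂ
  set ξ' := ⟪g, vec 0 1 0⟫_ℂ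
  set η' := ⟪g, vec 0 0 1⟫_ℂ
  have := mom (η * conj η' / 4) (-(η * conj ξ' + ξ * conj η') / 2)
    (ξ * conj ξ' + (o * conj η' + η * conj o') / 4) (-(o * conj ξ' + ξ * conj o') / 2)
    (o * conj o' / 4) 0
  rw [integral_congr_ae (g := fun z : ℝ => (N * r) ^ 2 * ((η * conj η' / 4 +
    (-(η * conj ξ' + ξ * conj η') / 2) * z + (ξ * conj ξ' + (o * conj η' + η * conj o') / 4) * z ^ 2
    + (-(o * conj ξ' + ξ * conj o') / 2) * z ^ 3 + (o * conj o' / 4) * z ^ 4) * G 0 z)),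
    integral_const_mul, this]
  · have h1 : (N : ℂ) ^ 2 = r ^ 2 * (4 / 3) := by
      rw [← ofReal_pow, N_sq]; push_cast; ring
    have h2 : (r : ℂ) ^ 2 * s = 1 := by exact_mod_cast r_sq
    simp only [map_add, map_div₀, map_ofNat, ofReal_zero, mul_pow, h1]
    simp only [ne_eq, OfNat.ofNat_ne_zero, not_false_eq_true, zero_pow, neg_zero, exp_zero]
    linear_combination (r ^ 2 * (4 / 3) * (η * conj η' / 4 + (ξ * conj ξ' +
      (o * conj η' + η * conj o') / 4) / 2 + 3 / 16 * (o * conj o'))) * h2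
  · refine Filter.Eventually.of_forall fun z => ?_
    have : G 0 z = cexp (-(z : ℂ) ^ 2 / 2) ^ 2 := by
      rw [G, ← Complex.exp_nat_mul]; congr 1; simp; ring
    simp only [this, map_mul, map_add, map_sub, map_div₀, map_pow, conj_ofReal, map_ofNat,
      ← Complex.exp_conj, map_neg]
    ring

theorem result : ∃ ψ φ : H, ‖ψ‖ = 1 ∧ ‖φ‖ = 1 ∧ FockB ψ ∧ FockB φ ∧ bs ψ φ ∈ Dplus ∧
    bs ψ φ ∉ Dplus.extremePoints ℝ := by
  refine ⟨vec 0 0 N, vec r 0 0, ?_, ?_, ⟨Polynomial.C (N : ℂ) * Polynomial.X ^ 2, ?_⟩,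
    ⟨Polynomial.C (r : ℂ), ?_⟩, by rw [bs_eq]; exact rho_mem (by norm_num), ?_⟩
  · rw [← pow_eq_one_iff_of_nonneg (norm_nonneg _) two_ne_zero, norm_vec, N_sq]
    linear_combination r_sq
  · rw [← pow_eq_one_iff_of_nonneg (norm_nonneg _) two_ne_zero, norm_vec]
    linear_combination r_sq
  · filter_upwards [vec_coe 0 0 N] with x hx
    simp [hx, vf]
  · filter_upwards [vec_coe r 0 0] with x hx
    simp [hx, vf]
  · rw [bs_eq]
    intro h
    have h1 := h.2 (rho_mem (e := 1) (by norm_num)) (rho_mem (e := -1) (by norm_num))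
      ⟨1 / 2, 1 / 2, by norm_num, by norm_num, by norm_num, by
        ext f g
        simp only [Pi.add_apply, Pi.smul_apply, real_smul]
        rw [rho_eq (by norm_num), rho_eq (by norm_num), rho_eq (by norm_num)]
        push_cast; ring⟩
    have h2 := congrFun (congrFun h1 (vec 0 1 0)) (vec 0 0 1)
    rw [rho_eq (by norm_num), rho_eq (by norm_num)] at h2
    simp only [inner_vv, map_add, map_sub, map_div₀, conj_ofReal, map_ofNat] at h2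
    have h3 : (r : ℂ) ^ 2 * s = 1 := by exact_mod_cast r_sq
    have h4 : (s : ℂ) = 0 := by
      push_cast at h2
      linear_combination 36 * h2 - s * h3
    exact s_pos.ne' (by exact_mod_cast h4)

end

end Pool.Agent.Results.MP_bdb089_mp.No
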